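import Pool.Agent.AT2.Stmts

/-!
# Squad AT2, module PWU: the subgroup of the powers of an abelian group
-/

open scoped BigOperators

noncomputable section

namespace Pool.Agent.PP.T2.H32

open Pool.Agent.Helper51_AWC Pool.Agent.Helper79_WRA Pool.Agent.PP Pool.Agent.PP.KF
open Pool.Agent.PP.K9 Pool.Agent.PP.K9.H97 Pool.Agent.PP.H75 Pool.Agent.PP.T3
open Pool.Agent.PP.T2

variable {G : Type} [Group G]

theorem mem_uw {n : ℕ} {V : Subgroup G} (hab : ∀ a ∈ V, ∀ b ∈ V, a * b = b * a) (x : G) :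
    x ∈ Uw n V ↔ ∃ v ∈ V, x = v ^ n := by
  constructor
  · intro hx
    refine Subgroup.closure_induction (p := fun y _ => ∃ v ∈ V, y = v ^ n) ?_ ?_ ?_ ?_ hx
    · rintro y ⟨v, hv, rfl⟩
      exact ⟨v, hv, rfl⟩
    · exact ⟨1, V.one_mem, (one_pow n).symm⟩
    · rintro y z _ _ ⟨v, hv, rfl⟩ ⟨w, hw, rfl⟩
      have hc : Commute v w := hab v hv w hw
      exact ⟨v * w, V.mul_mem hv hw, (hc.mul_pow n).symm⟩
    · rintro y _ ⟨v, hv, rfl⟩
      exact ⟨v⁻¹, V.inv_mem hv, (inv_pow v n).symm⟩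
  · rintro ⟨v, hv, rfl⟩
    exact Subgroup.subset_closure ⟨v, hv, rfl⟩

theorem uw_le (n : ℕ) (V : Subgroup G) : Uw n V ≤ V := by
  apply (Subgroup.closure_le V).2
  rintro y ⟨v, hv, rfl⟩
  exact V.pow_mem hv n

theorem uw_map (n : ℕ) (V : Subgroup G) {H : Type} [Group H] (φ : G →* H) :
    Uw n (V.map φ) = (Uw n V).map φ := by
  unfold Uw
  rw [MonoidHom.map_closure]
  apply congrArg
  ext y
  constructor
  · rintro ⟨x, hx, rfl⟩
    obtain ⟨v, hv, rfl⟩ := hx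
    refine ⟨v ^ n, ⟨v, hv, rfl⟩, ?_⟩
    simp
  · rintro ⟨x, ⟨v, hv, rfl⟩, rfl⟩
    refine ⟨φ v, ⟨v, hv, rfl⟩, ?_⟩
    simp

theorem uw_normalizer (n : ℕ) (V : Subgroup G) :
    Subgroup.normalizer (V : Set G) ≤ Subgroup.normalizer (Uw n V : Set G) := by
  intro g hg
  have key : ∀ g ∈ Subgroup.normalizer (V : Set G), ∀ y ∈ Uw n V, g * y * g⁻¹ ∈ Uw n V := by
    intro g hg y hy
    have h1 : g * y * g⁻¹ ∈ (Uw n V).map (MulAut.conj g).toMonoidHom := ⟨y, hy, by simp⟩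
    rw [← uw_map] at h1
    have h2 : V.map (MulAut.conj g).toMonoidHom = V := by
      ext z
      constructor
      · rintro ⟨w, hw, rfl⟩
        exact (Subgroup.mem_normalizer_iff.1 hg w).1 hw
      · intro hz
        have hg' := (Subgroup.normalizer (V : Set G)).inv_mem hg
        have h3 := (Subgroup.mem_normalizer_iff.1 hg' z).1 hz
        refine ⟨g⁻¹ * z * g⁻¹⁻¹, h3, ?_⟩
        simp
        group
    rwa [h2] at h1
  rw [Subgroup.mem_normalizer_iff]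
  intro y
  constructor
  · intro hy
    exact key g hg y hy
  · intro hy
    have h4 := key g⁻¹ ((Subgroup.normalizer (V : Set G)).inv_mem hg) _ hy
    have h5 : g⁻¹ * (g * y * g⁻¹) * g⁻¹⁻¹ = y := by group
    rwa [h5] at h4

theorem uw_subgroupOf {n : ℕ} {V : Subgroup G} (hab : ∀ a ∈ V, ∀ b ∈ V, a * b = b * a)
    {X : Subgroup G} (hX : V ≤ X) : Uw n (V.subgroupOf X) = (Uw n V).subgroupOf X := by
  have hab' : ∀ a ∈ V.subgroupOf X, ∀ b ∈ V.subgroupOf X, a * b = b * a := by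
    intro a ha b hb
    apply Subtype.ext
    exact hab _ ha _ hb
  ext x
  rw [mem_uw hab', Subgroup.mem_subgroupOf, mem_uw hab]
  constructor
  · rintro ⟨v, hv, rfl⟩
    exact ⟨v, hv, by simp⟩
  · rintro ⟨v, hv, hx⟩
    exact ⟨⟨v, hX hv⟩, hv, Subtype.ext (by simpa using hx)⟩

/-- for an abelian `V` whose exponent is a power of a prime `ℓ`: if `v ^ ℓ^(a-1) = 1` for all
`v ∈ V`, the exponent divides `ℓ ^ (a-1)` -/
theorem exponent_dvd_iff (V : Subgroup G) (m : ℕ) :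
    Monoid.exponent V ∣ m ↔ ∀ v ∈ V, v ^ m = 1 := by
  rw [Monoid.exponent_dvd_iff_forall_pow_eq_one]
  constructor
  · intro h v hv
    have := h ⟨v, hv⟩
    exact congrArg Subtype.val this
  · intro h v
    apply Subtype.ext
    exact h v v.2

theorem uw_exp {ℓ a : ℕ} [hp : Fact ℓ.Prime] (ha : 0 < a) {V : Subgroup G}
    (hab : ∀ a ∈ V, ∀ b ∈ V, a * b = b * a) (he : Monoid.exponent V = ℓ ^ a) :
    Uw (ℓ ^ (a - 1)) V ≠ ⊥ ∧ ∀ (H : Type) [Group H] (φ : G →* H),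
      Monoid.exponent (V.map φ) = ℓ ^ a ∨ Uw (ℓ ^ (a - 1)) V ≤ φ.ker := by
  constructor
  · intro hbot
    have h1 : ∀ v ∈ V, v ^ ℓ ^ (a - 1) = 1 := by
      intro v hv
      have h2 : v ^ ℓ ^ (a - 1) ∈ Uw (ℓ ^ (a - 1)) V := (mem_uw hab _).2 ⟨v, hv, rfl⟩
      rw [hbot] at h2
      exact Subgroup.mem_bot.1 h2
    have h3 := (exponent_dvd_iff V _).2 h1
    rw [he] at h3
    have h4 := (Nat.pow_dvd_pow_iff_le_right hp.out.one_lt).1 h3
    omega
  · intro H _ φ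
    have h5 : Monoid.exponent (V.map φ) ∣ ℓ ^ a := by
      rw [exponent_dvd_iff]
      rintro y ⟨v, hv, rfl⟩
      have h6 := (exponent_dvd_iff V (ℓ ^ a)).1 (he ▸ dvd_refl _) v hv
      rw [← map_pow, h6, map_one]
    obtain ⟨k, hk, hk'⟩ := (Nat.dvd_prime_pow hp.out).1 h5
    by_cases hka : k = a
    · left
      rw [hk', hka]
    · right
      intro x hx
      obtain ⟨v, hv, rfl⟩ := (mem_uw hab _).1 hx
      have h7 : Monoid.exponent (V.map φ) ∣ ℓ ^ (a - 1) := by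
        rw [hk']
        apply Nat.pow_dvd_pow
        omega
      have h8 := (exponent_dvd_iff (V.map φ) _).1 h7 (φ v) ⟨v, hv, rfl⟩
      rw [MonoidHom.mem_ker, map_pow]
      exact h8

theorem pwu : PwuStmt := by
  intro G _ _ n V hab
  refine ⟨mem_uw hab, uw_le n V, uw_normalizer n V, ?_, ?_, ?_, ?_, ?_⟩
  · exact Subgroup.centralizer_le (uw_le n V)
  · intro g
    exact uw_map n V _
  · intro H _ φ
    exact uw_map n V φ
  · intro X hX
    exact uw_subgroupOf hab hX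
  · intro ℓ a _ ha he hn
    subst hn
    exact uw_exp ha hab he

end Pool.Agent.PP.T2.H32
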