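import Pool.Agent.Helper32_AT2.PWU
import Pool.Agent.Helper85_AT3.LSB
import Pool.Agent.Helper88_AT3.Loc
import Pool.Agent.Helper20_PP.Ibr

/-!
# Squad AT2, module FST: the block of the normaliser of `U = V ^ n` over `γ`
-/

open scoped BigOperators

noncomputable section

namespace Pool.Agent.PP.T2.H32

open Pool.Agent.Helper51_AWC Pool.Agent.Helper79_WRA Pool.Agent.PP Pool.Agent.PP.KF
open Pool.Agent.PP.K9 Pool.Agent.PP.K9.H97 Pool.Agent.PP.H75 Pool.Agent.PP.T3
open Pool.Agent.PP.T2

attribute [local instance] Ideal.Quotient.field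

section tools

variable {F G : Type} [Field F] [Group G] [Finite G] {ℓ : ℕ} [Fact ℓ.Prime]

omit [Finite G] in
theorem br_zero (V : Subgroup G) : br V (0 : G → F) = 0 := by
  funext g
  by_cases hg : g ∈ Subgroup.centralizer (V : Set G)
  · rw [H66.br_of_mem hg]
  · rw [H66.br_of_not_mem hg]
    rfl

omit [Finite G] in
theorem br_add (V : Subgroup G) (a b : G → F) : br V (a + b) = br V a + br V b := by
  funext g
  by_cases hg : g ∈ Subgroup.centralizer (V : Set G)
  · rw [H66.br_of_mem hg, Pi.add_apply, Pi.add_apply, H66.br_of_mem hg, H66.br_of_mem hg]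
  · rw [H66.br_of_not_mem hg, Pi.add_apply, H66.br_of_not_mem hg, H66.br_of_not_mem hg, add_zero]

omit [Fact ℓ.Prime] in
/-- `br_V` is multiplicative on the idempotents of `X ≥ V` -/
theorem br_mul (hF : GoodF ℓ F) {V X : Subgroup G} (hV : IsPGroup ℓ V)
    (hVX : V ≤ X) {b c : G → F} (hb : Ix X b) (hc : Ix X c) :
    br V (mulF b c) = mulF (br V b) (br V c) :=
  H66.br_mulF hF hV (fun p hp => (cj_eq_iff p b).1 (hb.inv (hVX hp)))
    (fun p hp => (cj_eq_iff p c).1 (hc.inv (hVX hp)))

omit [Fact ℓ.Prime] in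
/-- the image of an idempotent of `X` under `br_V` -/
theorem ix_br (hF : GoodF ℓ F) {V X : Subgroup G} (hV : IsPGroup ℓ V)
    (hVX : V ≤ X) (hCX : Subgroup.centralizer (V : Set G) ≤ X) {b : G → F}
    (hb : Ix X b) : Ix (Subgroup.centralizer (V : Set G)) (br V b) := by
  refine ⟨fun x hx => H66.br_of_not_mem hx, ?_, ?_⟩
  · intro x y
    change br V b (y * x * (y : G)⁻¹) = br V b x
    have hmem : (y : G) * x * (y : G)⁻¹ ∈ Subgroup.centralizer (V : Set G) :=
      Subgroup.mul_mem _ (Subgroup.mul_mem _ y.2 x.2) (Subgroup.inv_mem _ y.2)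
    rw [H66.br_of_mem hmem, H66.br_of_mem x.2]
    exact (cj_eq_iff (y : G) b).1 (hb.inv (hCX y.2)) x
  · rw [← mulF_res (Subgroup.centralizer (V : Set G)) _ (fun x hx => H66.br_of_not_mem hx),
      ← br_mul hF hV hVX hb hb, hb.mul]

omit [Fact ℓ.Prime] in
/-- Two central idempotents which are equal in all irreducible representations are equal. -/
theorem idem_eq (hF : GoodF ℓ F) {a b : G → F} (ha : IsIdem a) (hb : IsIdem b)
    (h : ∀ (n : ℕ) (ρ : G →* Matrix (Fin n) (Fin n) F), IsIrr ρ → ev ρ a = ev ρ b) : a = b := by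
  have hab : mulF a b = mulF b a := H75.mulF_comm_cl ha.1 b
  have h1 : ∀ (n : ℕ) (ρ : G →* Matrix (Fin n) (Fin n) F), IsIrr ρ → ev ρ (a - b) = 0 := by
    intro n ρ hρ
    have h3 : ev ρ (a - b) = ev ρ a - ev ρ b := by
      rw [sub_eq_add_neg, ← neg_one_smul F b, ev_add, ev_smul,
        neg_one_smul, sub_eq_add_neg]
    rw [h3, h n ρ hρ, sub_self]
  obtain ⟨k, hk⟩ := H20.ibn ℓ F hF G (a - b) h1
  -- the products
  have hsubl : ∀ x y z : G → F, mulF (x - y) z = mulF x z - mulF y z := by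
    intro x y z
    have h4 := K9.H24.mulF_add_l (x - y) y z
    rw [sub_add_cancel] at h4
    rw [h4, add_sub_cancel_right]
  have hc2 : mulF (a - b) (a - b) = a + b - mulF a b - mulF a b := by
    rw [hsubl, H20.mulF_sub, H20.mulF_sub, ha.2, hb.2, ← hab]
    abel
  have haab : mulF a (mulF a b) = mulF a b := by rw [← mulF_assoc, ha.2]
  have hbab : mulF b (mulF a b) = mulF a b := by
    rw [hab, ← mulF_assoc, hb.2]
  have hc3 : mulF (a - b) (mulF (a - b) (a - b)) = a - b := by
    rw [hc2, hsubl, H20.mulF_sub, H20.mulF_sub, H20.mulF_sub, H20.mulF_sub, H20.mulF_add,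
      H20.mulF_add, ha.2, hb.2, haab, hbab, ← hab]
    abel
  have hit : ∀ m : ℕ, (mulF (a - b))^[2 * m] (a - b) = a - b := by
    intro m
    induction m with
    | zero => rfl
    | succ m ih =>
      rw [show 2 * (m + 1) = 2 * m + 2 by ring, Function.iterate_add_apply]
      have h5 : (mulF (a - b))^[2] (a - b) = a - b := hc3
      rw [h5, ih]
  have h6 : (mulF (a - b))^[2 * k] (a - b) = 0 := by
    rw [show 2 * k = k + k by ring, Function.iterate_add_apply, hk]
    clear hk h1 hit
    induction k with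
    | zero => rfl
    | succ k ih =>
      rw [Function.iterate_succ_apply, H75.mulF_zero_right, ih]
  rw [hit k] at h6
  exact sub_eq_zero.1 h6

omit [Fact ℓ.Prime] in
/-- a central idempotent of the normaliser of an `ℓ`-subgroup `U` is zero outside of the
centraliser of `U` -/
theorem supp_cent (hF : GoodF ℓ F) {U X : Subgroup G} (hU : IsPGroup ℓ U) (hUX : U ≤ X)
    (hCX : Subgroup.centralizer (U : Set G) ≤ X)
    (hX : X ≤ Subgroup.normalizer (U : Set G)) {f : G → F} (hf : Ix X f) :
    br U f = f := by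
  have hbr := ix_br hF hU hUX hCX hf
  have hsupp : ∀ x, x ∉ X → br U f x = 0 := fun x hx => hbr.supp x (fun h => hx (hCX h))
  apply eq_of_res hsupp hf.supp
  have hnorm : (U.subgroupOf X).Normal := by
    rw [Subgroup.normal_subgroupOf_iff hUX]
    intro h g hh hg
    exact (Subgroup.mem_normalizer_iff.1 (hX hg) h).1 hh
  have hp : IsPGroup ℓ (U.subgroupOf X) :=
    hU.of_equiv (Subgroup.subgroupOfEquivOfLe hUX).symm
  have hbr2 : br (U.subgroupOf X) (fun t : X => f t) = fun t : X => br U f t := by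
    funext t
    by_cases hc : (t : G) ∈ Subgroup.centralizer (U : Set G)
    · rw [H66.br_of_mem hc, H66.br_of_mem ((cent_sub hUX t).2 hc)]
    · rw [H66.br_of_not_mem hc, H66.br_of_not_mem (fun h => hc ((cent_sub hUX t).1 h))]
  have hcl : IsCl (fun t : X => br U f t) := by
    intro x y
    change br U f ((y : G) * x * (y : G)⁻¹) = br U f x
    have hmem : (y : G) * x * (y : G)⁻¹ ∈ Subgroup.centralizer (U : Set G) ↔
        (x : G) ∈ Subgroup.centralizer (U : Set G) := by
      have h1 : ∀ x y : G, y ∈ Subgroup.normalizer (U : Set G) →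
          x ∈ Subgroup.centralizer (U : Set G) →
          y * x * y⁻¹ ∈ Subgroup.centralizer (U : Set G) := by
        intro x y hy hx
        rw [Subgroup.mem_centralizer_iff] at hx ⊢
        intro r hr
        have h2 : y⁻¹ * r * y ∈ U := by
          have := (Subgroup.mem_normalizer_iff.1 (Subgroup.inv_mem _ hy) r).1 hr
          rwa [inv_inv] at this
        have h3 := hx _ h2
        calc r * (y * x * y⁻¹) = y * (y⁻¹ * r * y * x) * y⁻¹ := by group
          _ = y * (x * (y⁻¹ * r * y)) * y⁻¹ := by rw [h3]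
          _ = y * x * y⁻¹ * r := by group
      constructor
      · intro h
        have h3 := h1 _ _ (Subgroup.inv_mem _ (hX y.2)) h
        have h4 : (y : G)⁻¹ * ((y : G) * x * (y : G)⁻¹) * ((y : G)⁻¹)⁻¹ = x := by group
        rwa [h4] at h3
      · exact h1 _ _ (hX y.2)
    by_cases hc : (x : G) ∈ Subgroup.centralizer (U : Set G)
    · rw [H66.br_of_mem hc, H66.br_of_mem (hmem.2 hc)]
      exact hf.idem.1 x y
    · rw [H66.br_of_not_mem hc, H66.br_of_not_mem (fun h => hc (hmem.1 h))]
  have hid : IsIdem (fun t : X => br U f t) := by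
    refine ⟨hcl, ?_⟩
    rw [← mulF_res X _ hsupp, hbr.mul]
  apply idem_eq hF hid hf.idem
  intro n ρ hρ
  have h2 := ((H20.nls ℓ F hF X (U.subgroupOf X) hnorm hp n ρ hρ).2 (fun t : X => f t)
    hf.idem.1).1
  rw [hbr2] at h2
  exact h2.symm

end tools

/-- FST -/
theorem fst : FstStmt := by
  intro ℓ _ M _ hM G _ _ e V γ hL n
  have hF : GoodF ℓ (FF M) := H50.fld ℓ Fact.out M hM
  obtain ⟨-, hUV, hNV, hCVU, -⟩ := pwu G n V hL.ab
  set U : Subgroup G := Uw n V with hUdef
  have hUp : IsPGroup ℓ U := hL.tp.pg.to_le hUV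
  set X : Subgroup G := Subgroup.normalizer (U : Set G) with hXdef
  have hCX : Subgroup.centralizer (V : Set G) ≤ X :=
    (T3.H85.cent_le_norm V).trans hNV
  have hCUX : Subgroup.centralizer (U : Set G) ≤ X := T3.H85.cent_le_norm U
  have hVX : V ≤ X := by
    refine le_trans ?_ hNV
    exact Subgroup.le_normalizer
  have hUX : U ≤ X := hUV.trans hVX
  -- the idempotent `br_U(e)` of `X`
  have hEid : IsIdem (fun t : X => br U e t) :=
    (H20.brm ℓ (FF M) hF G U X hUp hCUX le_rfl).2.2 e hL.blk.1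
  have hEX : Ix X (br U e) :=
    ⟨fun x hx => H66.br_of_not_mem (fun h => hx (hCUX h)), hEid⟩
  have hbrE : br V (br U e) = br V e := by
    funext g
    by_cases hg : g ∈ Subgroup.centralizer (V : Set G)
    · rw [H66.br_of_mem hg, H66.br_of_mem hg, H66.br_of_mem (hCVU hg)]
    · rw [H66.br_of_not_mem hg, H66.br_of_not_mem hg]
  have hext_add : ∀ a b : X → FF M, PP.ext0 X (a + b) = PP.ext0 X a + PP.ext0 X b := by
    intro a b
    funext x
    by_cases hx : x ∈ X
    · rw [H46.ext0_of_mem _ hx, Pi.add_apply, Pi.add_apply, H46.ext0_of_mem _ hx,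
        H46.ext0_of_mem _ hx]
    · rw [H46.ext0_of_not_mem _ hx, Pi.add_apply, H46.ext0_of_not_mem _ hx,
        H46.ext0_of_not_mem _ hx, add_zero]
  have hext_zero : PP.ext0 X (0 : X → FF M) = 0 := by
    funext x
    by_cases hx : x ∈ X
    · rw [H46.ext0_of_mem _ hx]
      rfl
    · rw [H46.ext0_of_not_mem _ hx]
      rfl
  have hextE : PP.ext0 X (fun t : X => br U e t) = br U e := by
    funext x
    by_cases hx : x ∈ X
    · rw [H46.ext0_of_mem _ hx]
    · rw [H46.ext0_of_not_mem _ hx, hEX.supp x hx]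
  obtain ⟨b₀, hb₀, heb₀, hL₀⟩ := K9.H24.exists_blk
    (fun a : X → FF M => mulF (br V (PP.ext0 X a)) γ)
    (by
      show mulF (br V (PP.ext0 X 0)) γ = 0
      rw [hext_zero, br_zero, mulF_zero_left])
    (by
      intro a b
      show mulF (br V (PP.ext0 X (a + b))) γ =
        mulF (br V (PP.ext0 X a)) γ + mulF (br V (PP.ext0 X b)) γ
      rw [hext_add, br_add, K9.H24.mulF_add_l])
    hEid
    (by
      show mulF (br V (PP.ext0 X (fun t : X => br U e t))) γ ≠ 0
      rw [hextE, hbrE, hL.und]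
      exact hL.gam.ne)
  have hrestr : (fun t : X => PP.ext0 X b₀ t) = b₀ := H46.restr_ext0 _
  set f : G → FF M := PP.ext0 X b₀ with hf
  have hfX : Bx X f := by
    refine ⟨fun x hx => H46.ext0_of_not_mem _ hx, ?_⟩
    rw [hrestr]
    exact hb₀
  have hfg : mulF (br V f) γ = γ := by
    have hix := ix_br hF hL.tp.pg hVX hCX hfX.ix
    rw [hix.comm hL.gam.ix]
    rcases hL.gam.dich' hix with h | h
    · exact h
    · exfalso
      apply hL₀
      show mulF (br V f) γ = 0
      rw [hix.comm hL.gam.ix, h]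
  have hund : mulF (br U e) f = f := by
    apply eq_of_res (mulF_supp X hEX.supp hfX.supp) hfX.supp
    rw [mulF_res X f hEX.supp, hrestr]
    exact heb₀
  have hsupp : ∀ x, x ∉ Subgroup.centralizer (U : Set G) → f x = 0 := by
    intro x hx
    rw [← supp_cent hF hUp hUX hCUX le_rfl hfX.ix]
    exact H66.br_of_not_mem hx
  -- the defect group of `f`
  have hVcard : Nat.card (V.subgroupOf X) = Nat.card V :=
    Nat.card_congr (Subgroup.subgroupOfEquivOfLe hVX).toEquiv
  have hVp : IsPGroup ℓ (V.subgroupOf X) :=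
    hL.tp.pg.of_equiv (Subgroup.subgroupOfEquivOfLe hVX).symm
  have hTf : Tp ℓ (fun t : X => f t) (V.subgroupOf X) := by
    refine ⟨hVp, T3.H85.gd_of_gam hVX hCX hL.gam hfg, ?_⟩
    intro Q hQ hQf
    have hmul : mulF (fun t : X => br U e t) (fun t : X => f t) = fun t : X => f t := by
      rw [hrestr]
      exact heb₀
    have h1 := gd_map (gd_of_mul hF hEid.1 hfX.blk.1.1 hmul hQ hQf)
    have h1' : Gd e (Q.map X.subtype) := by
      obtain ⟨g, hg1, hg2⟩ := h1
      refine ⟨g, hg1, ?_⟩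
      intro h0
      apply hg2
      by_cases hg : g ∈ Subgroup.centralizer (U : Set G)
      · rw [H66.br_of_mem hg, h0]
      · rw [H66.br_of_not_mem hg]
    have hcard : Nat.card (Q.map X.subtype) = Nat.card Q :=
      (Nat.card_congr (Q.equivMapOfInjective X.subtype X.subtype_injective).toEquiv).symm
    have h2 := hL.tp.mx _ (hQ.map X.subtype) h1'
    rw [hcard] at h2
    rw [hVcard]
    exact h2
  have hLf := T3.H85.ld_of hVX hCX hL.ab hfX.blk hL.gam hfg hTf
  -- the two blocks of the normaliser of `V`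
  obtain ⟨-, ⟨hbe, -⟩, -⟩ := K9.H69.fmg ℓ M hM G e hL.blk V hL.tp
  obtain ⟨-, ⟨hbf, -⟩, -⟩ := K9.H69.fmg ℓ M hM X (fun t : X => f t) hfX.blk
    (V.subgroupOf X) hTf
  have hBe : Bx (Subgroup.normalizer (V : Set G)) (br V e) :=
    ⟨fun x hx => H66.br_of_not_mem (fun h => hx (T3.H85.cent_le_norm V h)), hbe⟩
  have hBf : Bx (Subgroup.normalizer (V : Set G)) (br V f) := by
    have h1 := bx_of hVX hCX (T3.H85.cent_le_norm V) hbf
    rw [hrestr, inf_eq_left.2 hNV] at h1
    exact h1
  have hbr : br V f = br V e := by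
    rcases hBf.dich hBe with h | h
    · exact h
    · exfalso
      apply hL.gam.ne
      calc γ = mulF (br V f) (mulF (br V e) γ) := by rw [hL.und, hfg]
        _ = mulF (mulF (br V f) (br V e)) γ := (mulF_assoc _ _ _).symm
        _ = 0 := by rw [h, mulF_zero_left]
  refine ⟨f, hfX, hsupp, hund, hbr, hNV, hLf, ?_⟩
  rw [T3.H85.ix_eq hVX hCX hL.gam.supp]
  unfold ix
  have h3 : Tg V γ ⊓ X = Tg V γ := inf_eq_left.2 (inf_le_left.trans hNV)
  rw [h3]

end Pool.Agent.PP.T2.H32
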